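import Mathlib

set_option autoImplicit false

/-!
Greedy selection of rows by order (linear algebra).

`R : ρ → (Fin D → F)` are row vectors with orders `ord : ρ → ℕ`. If some `D` rows have a nonzero
determinant, there are `D` rows with a nonzero determinant such that every row is a combination of
selected rows of at most the same order (`exists_greedy`); the number of selected rows of order
`> i` is the dimension of the common kernel of the rows of order `≤ i` (`card_greedy`); replacing
every selected row by a row that differs from it by a combination of rows of smaller order does not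
change the determinant (`det_replace`).
-/

namespace Pool.Agent.Work.MP_f2148a_nt.M56.GR

open Matrix

variable {F : Type*} [Field F] {D : ℕ} {ρ : Type*} (ord : ρ → ℕ) (R : ρ → Fin D → F)

/-- The span of the selected rows of order at most `i`. -/
def spanLe (sel : Fin D → ρ) (i : ℕ) : Submodule F (Fin D → F) :=
  Submodule.span F {x | ∃ a, ord (sel a) ≤ i ∧ x = R (sel a)}

/-- Greedy selection. -/
theorem exists_greedy (h : ∃ sel : Fin D → ρ, (Matrix.of fun a => R (sel a)).det ≠ 0) :
    ∃ sel : Fin D → ρ, (Matrix.of fun a => R (sel a)).det ≠ 0 ∧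
      ∀ r, R r ∈ spanLe ord R sel (ord r) := by
  classical
  let Q : ℕ → Prop := fun n => ∃ sel : Fin D → ρ, (Matrix.of fun a => R (sel a)).det ≠ 0 ∧
    ∑ a, ord (sel a) = n
  have hQ : ∃ n, Q n := by
    obtain ⟨sel, hs⟩ := h
    exact ⟨_, sel, hs, rfl⟩
  obtain ⟨sel, hs, hn⟩ := Nat.find_spec hQ
  refine ⟨sel, hs, fun r => ?_⟩
  obtain ⟨M, hM⟩ : ∃ M : Matrix (Fin D) (Fin D) F, M = Matrix.of fun a => R (sel a) := ⟨_, rfl⟩
  rw [← hM] at hs
  have hunit : IsUnit M.det := isUnit_iff_ne_zero.2 hs
  -- the coordinates of `R r`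
  obtain ⟨c, hc⟩ : ∃ c : Fin D → F, c = R r ᵥ* M⁻¹ := ⟨_, rfl⟩
  have hc1 : R r = ∑ a, c a • R (sel a) := by
    have h1 : c ᵥ* M = R r := by
      rw [hc, Matrix.vecMul_vecMul, Matrix.nonsing_inv_mul M hunit, Matrix.vecMul_one]
    rw [← h1]
    funext b
    simp only [Matrix.vecMul, dotProduct, Finset.sum_apply, Pi.smul_apply, smul_eq_mul, hM,
      Matrix.of_apply]
  have key : ∀ a, c a ≠ 0 → ord (sel a) ≤ ord r := by
    intro a ha
    by_contra hcon
    rw [not_le] at hcon
    have h1 : (Matrix.of fun b => R (Function.update sel a r b)) = M.updateRow a (R r) := by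
      ext b j
      by_cases hb : b = a
      · subst hb
        simp
      · simp [Function.update_of_ne hb, Matrix.updateRow_ne hb, hM]
    have h2 : (M.updateRow a (R r)).det = c a * M.det := by
      rw [hc1]
      have h3 : (M.updateRow a (∑ b, c b • R (sel b))).det =
          ∑ b, c b * (M.updateRow a (R (sel b))).det := by
        rw [← Matrix.cramer_transpose_apply, map_sum, Finset.sum_apply]
        refine Finset.sum_congr rfl fun b _ => ?_
        rw [map_smul, Pi.smul_apply, Matrix.cramer_transpose_apply, smul_eq_mul]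
      rw [h3, Finset.sum_eq_single a]
      · congr 2
        have : R (sel a) = M a := by rw [hM]; rfl
        rw [this, Matrix.updateRow_eq_self]
      · intro b _ hb
        have h4 : (M.updateRow a (R (sel b))).det = 0 := by
          refine Matrix.det_zero_of_row_eq (i := a) (j := b) (Ne.symm hb) ?_
          rw [Matrix.updateRow_self, Matrix.updateRow_ne hb, hM]
          rfl
        rw [h4, mul_zero]
      · intro h5
        exact absurd (Finset.mem_univ a) h5
    have h6 : Q (∑ b, ord (Function.update sel a r b)) := by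
      refine ⟨Function.update sel a r, ?_, rfl⟩
      rw [h1, h2]
      exact mul_ne_zero ha hs
    have h7 : ∑ b, ord (Function.update sel a r b) < ∑ b, ord (sel b) := by
      refine Finset.sum_lt_sum (fun b _ => ?_) ⟨a, Finset.mem_univ a, ?_⟩
      · by_cases hb : b = a
        · subst hb
          simp only [Function.update_self]
          exact hcon.le
        · simp [Function.update_of_ne hb]
      · simpa using hcon
    have h8 := Nat.find_min' hQ h6
    omega
  rw [hc1]
  refine Submodule.sum_mem _ fun a _ => ?_
  by_cases ha : c a = 0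
  · rw [ha, zero_smul]
    exact Submodule.zero_mem _
  · exact Submodule.smul_mem _ _ (Submodule.subset_span ⟨a, key a ha, rfl⟩)

/-- The common kernel of the rows of order at most `i`. -/
def kerLe (i : ℕ) : Submodule F (Fin D → F) where
  carrier := {x | ∀ r, ord r ≤ i → R r ⬝ᵥ x = 0}
  add_mem' := fun {x y} hx hy r hr => by
    rw [dotProduct_add, hx r hr, hy r hr, add_zero]
  zero_mem' := fun r _ => by rw [dotProduct_zero]
  smul_mem' := fun c x hx r hr => by
    rw [dotProduct_smul, hx r hr, smul_zero]

/-- The number of selected rows of order `> i`. -/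
theorem card_greedy {sel : Fin D → ρ} (hs : (Matrix.of fun a => R (sel a)).det ≠ 0)
    (hspan : ∀ r, R r ∈ spanLe ord R sel (ord r)) (i : ℕ) :
    (Finset.univ.filter fun a => i < ord (sel a)).card = Module.finrank F (kerLe ord R i) := by
  classical
  obtain ⟨M, hM⟩ : ∃ M : Matrix (Fin D) (Fin D) F, M = Matrix.of fun a => R (sel a) := ⟨_, rfl⟩
  rw [← hM] at hs
  have hunit : IsUnit M.det := isUnit_iff_ne_zero.2 hs
  -- the common kernel in the coordinates given by `M`
  have hmem : ∀ x, x ∈ kerLe ord R i ↔ ∀ a, ord (sel a) ≤ i → (M *ᵥ x) a = 0 := by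
    intro x
    have hMx : ∀ a, (M *ᵥ x) a = R (sel a) ⬝ᵥ x := fun a => by
      rw [hM]
      rfl
    constructor
    · intro h a ha
      rw [hMx]
      exact h (sel a) ha
    · intro h r hr
      have h1 := hspan r
      refine Submodule.span_induction (p := fun y _ => y ⬝ᵥ x = 0) ?_ ?_ ?_ ?_ h1
      · rintro y ⟨a, ha, rfl⟩
        rw [← hMx]
        exact h a (ha.trans hr)
      · exact zero_dotProduct x
      · intro y z _ _ hy hz
        rw [add_dotProduct, hy, hz, add_zero]
      · intro c y _ hy
        rw [smul_dotProduct, hy, smul_zero]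
  let e : (Fin D → F) ≃ₗ[F] (Fin D → F) := Matrix.toLinearEquiv' M
    (Matrix.invertibleOfIsUnitDet M hunit)
  have he : ∀ x, e x = M *ᵥ x := fun x => rfl
  let A : Set (Fin D) := {a | ord (sel a) ≤ i}
  let B : Set (Fin D) := {a | i < ord (sel a)}
  let S : Submodule F (Fin D → F) :=
    ⨅ a ∈ A, LinearMap.ker (LinearMap.proj (R := F) (φ := fun _ : Fin D => F) a)
  have hS : ∀ x, x ∈ S ↔ ∀ a, ord (sel a) ≤ i → x a = 0 := by
    intro x
    simp only [S, Submodule.mem_iInf, LinearMap.mem_ker, LinearMap.proj_apply]
    exact Iff.rfl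
  have h1 : Module.finrank F (kerLe ord R i) = Module.finrank F S := by
    have h2 : (kerLe ord R i).map (e : (Fin D → F) →ₗ[F] (Fin D → F)) = S := by
      ext x
      rw [Submodule.mem_map_equiv, hmem, hS]
      have h3 : M *ᵥ e.symm x = x := by
        rw [← he, LinearEquiv.apply_symm_apply]
      rw [h3]
    rw [← h2]
    exact (LinearEquiv.finrank_map_eq e (kerLe ord R i)).symm
  have h4 : Module.finrank F S = B.toFinset.card := by
    have e2 : S ≃ₗ[F] (B → F) := LinearMap.iInfKerProjEquiv F (fun _ : Fin D => F)
      (I := B) (J := A) (by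
        rw [Set.disjoint_left]
        intro a ha hb
        exact absurd (show ord (sel a) ≤ i from hb) (not_le.2 ha))
      (fun a _ => (lt_or_ge i (ord (sel a))).imp id id)
    rw [e2.finrank_eq, Module.finrank_fintype_fun_eq_card, Set.toFinset_card]
  rw [h1, h4]
  congr 1
  ext a
  simp [B]

/-- The sum of the orders of the selected rows. -/
theorem sum_greedy {sel : Fin D → ρ} (hs : (Matrix.of fun a => R (sel a)).det ≠ 0)
    (hspan : ∀ r, R r ∈ spanLe ord R sel (ord r)) (μ : ℕ) (hμ : kerLe ord R μ = ⊥) :
    ∑ a, ord (sel a) = ∑ i ∈ Finset.range μ, Module.finrank F (kerLe ord R i) := by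
  classical
  have h0 : ∀ a, ord (sel a) ≤ μ := by
    intro a
    by_contra hcon
    rw [not_le] at hcon
    have h1 := card_greedy ord R hs hspan μ
    rw [hμ, finrank_bot] at h1
    have h2 : a ∈ (Finset.univ.filter fun a => μ < ord (sel a)) := by
      rw [Finset.mem_filter]
      exact ⟨Finset.mem_univ a, hcon⟩
    rw [Finset.card_eq_zero] at h1
    rw [h1] at h2
    exact absurd h2 (Finset.notMem_empty a)
  calc ∑ a, ord (sel a) = ∑ a, ∑ i ∈ Finset.range μ, if i < ord (sel a) then 1 else 0 := by
        refine Finset.sum_congr rfl fun a _ => ?_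
        rw [← Finset.sum_filter, Finset.sum_const, smul_eq_mul, mul_one]
        have h1 : (Finset.range μ).filter (fun i => i < ord (sel a)) =
            Finset.range (ord (sel a)) := by
          ext i
          rw [Finset.mem_filter, Finset.mem_range, Finset.mem_range]
          have := h0 a
          omega
        rw [h1, Finset.card_range]
    _ = ∑ i ∈ Finset.range μ, Module.finrank F (kerLe ord R i) := by
        rw [Finset.sum_comm]
        refine Finset.sum_congr rfl fun i _ => ?_
        rw [← card_greedy ord R hs hspan i, Finset.card_filter]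

/-- Replacing the selected rows. -/
theorem det_replace {sel : Fin D → ρ} (hspan : ∀ r, R r ∈ spanLe ord R sel (ord r))
    (R' : Fin D → Fin D → F)
    (hR' : ∀ a, R' a - R (sel a) ∈ Submodule.span F {x | ∃ r, ord r < ord (sel a) ∧ x = R r}) :
    (Matrix.of R').det = (Matrix.of fun a => R (sel a)).det := by
  classical
  have h1 : ∀ a, ∃ u : Fin D → F, (∀ b, u b ≠ 0 → ord (sel b) < ord (sel a)) ∧
      R' a - R (sel a) = ∑ b, u b • R (sel b) := by
    intro a
    have h2 : Submodule.span F {x | ∃ r, ord r < ord (sel a) ∧ x = R r} ≤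
        Submodule.span F (Set.range fun b : {b : Fin D // ord (sel b) < ord (sel a)} =>
          R (sel b)) := by
      rw [Submodule.span_le]
      rintro _ ⟨r, hr, rfl⟩
      refine Submodule.span_mono ?_ (hspan r)
      rintro _ ⟨b, hb, rfl⟩
      exact ⟨⟨b, hb.trans_lt hr⟩, rfl⟩
    have h3 := h2 (hR' a)
    rw [Submodule.mem_span_range_iff_exists_fun] at h3
    obtain ⟨c, hc⟩ := h3
    refine ⟨fun b => if h : ord (sel b) < ord (sel a) then c ⟨b, h⟩ else 0, fun b hb => ?_, ?_⟩
    · by_contra hcon
      exact hb (dif_neg hcon)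
    · rw [← hc]
      obtain ⟨w, hw⟩ : ∃ w : Fin D → F, w = fun b =>
          if h : ord (sel b) < ord (sel a) then c ⟨b, h⟩ else 0 := ⟨_, rfl⟩
      have h5 : ∀ b : {b : Fin D // ord (sel b) < ord (sel a)}, c b = w b := fun b => by
        have h8 : w b = if h : ord (sel b) < ord (sel a) then c ⟨b, h⟩ else 0 := by rw [hw]
        rw [h8, dif_pos b.2]
      have h6 : ∑ i, c i • R (sel ↑i) =
          ∑ i : {b : Fin D // ord (sel b) < ord (sel a)}, w i • R (sel i) :=
        Finset.sum_congr rfl fun b _ => by rw [h5]
      rw [h6]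
      have h7 := Finset.sum_subtype (F := inferInstance)
        (p := fun b => ord (sel b) < ord (sel a))
        (Finset.univ.filter fun b => ord (sel b) < ord (sel a)) (fun b => by simp)
        (fun b => w b • R (sel b))
      rw [← h7, Finset.sum_filter]
      refine Finset.sum_congr rfl fun b _ => ?_
      have h8 : w b = if h : ord (sel b) < ord (sel a) then c ⟨b, h⟩ else 0 := by rw [hw]
      split_ifs with h
      · rw [h8, dif_pos h]
        simp only [dif_pos h]
      · simp only [dif_neg h, zero_smul]
  choose u hu hu' using h1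
  obtain ⟨M, hM⟩ : ∃ M : Matrix (Fin D) (Fin D) F, M = Matrix.of fun a => R (sel a) := ⟨_, rfl⟩
  obtain ⟨U, hU⟩ : ∃ U : Matrix (Fin D) (Fin D) F, U = 1 + Matrix.of u := ⟨_, rfl⟩
  have hfac : Matrix.of R' = U * M := by
    rw [hU, Matrix.add_mul, Matrix.one_mul]
    ext a b
    have h6 := congrFun (hu' a) b
    rw [Pi.sub_apply, Finset.sum_apply] at h6
    rw [Matrix.add_apply, Matrix.mul_apply, hM]
    simp only [Matrix.of_apply, Pi.smul_apply, smul_eq_mul] at h6 ⊢
    rw [← h6]
    ring
  have hdiag : ∀ a, u a a = 0 := fun a => by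
    by_contra h
    exact absurd (hu a a h) (lt_irrefl _)
  have htri : Uᵀ.BlockTriangular (fun a => ord (sel a)) := by
    intro a b hab
    rw [Matrix.transpose_apply, hU, Matrix.add_apply, Matrix.of_apply]
    have hne : b ≠ a := by
      rintro rfl
      exact absurd hab (lt_irrefl _)
    rw [Matrix.one_apply_ne hne, zero_add]
    by_contra h
    have := hu b a h
    have h7 : ord (sel b) < ord (sel a) := hab
    omega
  have hdet : U.det = 1 := by
    rw [← Matrix.det_transpose, htri.det]
    refine Finset.prod_eq_one fun i _ => ?_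
    have h8 : Uᵀ.toSquareBlock (fun a => ord (sel a)) i = 1 := by
      ext ⟨a, ha⟩ ⟨b, hb⟩
      rw [Matrix.toSquareBlock_def, Matrix.of_apply, Matrix.transpose_apply, hU,
        Matrix.add_apply, Matrix.of_apply]
      have h9 : u b a = 0 := by
        by_contra h
        have := hu b a h
        omega
      rw [h9, add_zero, Matrix.one_apply, Matrix.one_apply]
      simp only [Subtype.mk.injEq]
      exact if_congr eq_comm rfl rfl
    rw [h8, Matrix.det_one]
  rw [hfac, Matrix.det_mul, hdet, one_mul, hM]

end Pool.Agent.Work.MP_f2148a_nt.M56.GR
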